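import Pool.Agent.MP_fdcf9c_lc.Main

open Pool.Agent.MP_fdcf9c_lc

/-- For every cohesive set `C` and every computable field extension `K/F` (separable or not), the
transcendence degree of `∏_C K` over `∏_C F` is different from `1`; it is either `0` (that is,
`∏_C K/∏_C F` is algebraic) or `ℵ₀`. -/
theorem Pool.Agent.Results.MP_fdcf9c_lc.AlgebraicOrInfinite.result (C : Set ℕ) (hC : Cohesive C)
    (E : ComputableExtension) :
    E.powTrdeg C ≠ 1 ∧ (E.powTrdeg C = 0 ∨ E.powTrdeg C = Cardinal.aleph0) := by
  have h : E.powTrdeg C = 0 ∨ E.powTrdeg C = Cardinal.aleph0 := by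
    rcases main hC E with h | h
    · exact Or.inl trdeg_eq_zero
    · exact Or.inr h
  refine ⟨?_, h⟩
  rcases h with h | h
  · rw [h]
    exact zero_ne_one
  · rw [h]
    exact Cardinal.one_lt_aleph0.ne'
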